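import Pool.Agent.MWGX.StmtsA

/-!
# Squad MWGX, row ABV (helper39): without `F1` the empty block is kept
-/

set_option autoImplicit false

namespace Pool.Agent.MWGX.H39

open Pool.Agent.Helper14_MV Pool.Agent.Helper2_MV
open Pool.Agent.MWK (pre pre_split mem_split not_mem_pre)
open Pool.Agent.MWF (gaml)
open Pool.Agent.MWGN (nn)
open Pool.Agent.MWGQ (pw Gn E0 A0 P0)
open Pool.Agent.MWGR (X It Kaba F1 Dm Ec Es Ea Al0 Rh FE)
open Pool.Agent.MWGX

/-- keep `1`, `4`, `5` and rename them -/
def fr (i : ℕ) : List ℕ := if i = 1 then [0] else if i = 4 then [2] else if i = 5 then [3] else []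

theorem fm (L : List ℕ) (h4 : 4 ∉ L) (h5 : 5 ∉ L) : L.flatMap fr = List.replicate (L.count 1) 0 := by
  induction L with
  | nil => rfl
  | cons a L ih =>
    have ih' := ih (fun h => h4 (List.mem_cons_of_mem _ h)) (fun h => h5 (List.mem_cons_of_mem _ h))
    have ha4 : a ≠ 4 := fun h => h4 (h ▸ List.mem_cons_self)
    have ha5 : a ≠ 5 := fun h => h5 (h ▸ List.mem_cons_self)
    rw [List.flatMap_cons, ih']
    by_cases h1 : a = 1
    · subst h1
      rw [List.count_cons_self, List.replicate_succ]
      rfl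
    · rw [List.count_cons_of_ne h1]
      simp [fr, h1, ha4, ha5]

theorem shape {w : List ℕ} (h4 : w.count 4 = 1) (h5 : w.count 5 = 1) (h54 : nn w 5 4 = 0) :
    ∃ m g, w.flatMap fr = List.replicate (nn w 1 4) 0 ++ 2 ::
        (List.replicate m 0 ++ 3 :: List.replicate g 0) ∧
      nn w 1 5 = nn w 1 4 + m ∧ w.count 1 = nn w 1 5 + g := by
  obtain ⟨B, hB⟩ := mem_split (List.count_pos_iff.1 (show 0 < w.count 4 by omega))
  have h54' : (pre w 4).count 5 = 0 := h54
  obtain ⟨P, hP⟩ : ∃ P, P = pre w 4 := ⟨_, rfl⟩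
  have h4P : 4 ∉ P := by
    rw [hP]
    exact not_mem_pre w 4
  have hn1 : nn w 1 4 = P.count 1 := by rw [hP]; rfl
  rw [hn1]
  rw [← hP] at hB h54'
  have h5P : 5 ∉ P := List.count_eq_zero.1 h54'
  have h5B : B.count 5 = 1 := by
    rw [hB, List.count_append, List.count_cons_of_ne (by norm_num)] at h5
    omega
  have h4B : B.count 4 = 0 := by
    rw [hB, List.count_append, List.count_cons_self] at h4
    omega
  obtain ⟨R, hR⟩ := mem_split (List.count_pos_iff.1 (show 0 < B.count 5 by omega))
  obtain ⟨Q, hQ⟩ : ∃ Q, Q = pre B 5 := ⟨_, rfl⟩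
  have h5Q : 5 ∉ Q := by
    rw [hQ]
    exact not_mem_pre B 5
  rw [← hQ] at hR
  have h5R : 5 ∉ R := by
    rw [hR, List.count_append, List.count_cons_self] at h5B
    exact List.count_eq_zero.1 (by omega)
  have h4Q : 4 ∉ Q := by
    rw [hR, List.count_append] at h4B
    exact List.count_eq_zero.1 (by omega)
  have h4R : 4 ∉ R := by
    rw [hR, List.count_append, List.count_cons_of_ne (by norm_num)] at h4B
    exact List.count_eq_zero.1 (by omega)
  have hw : w = (P ++ 4 :: Q) ++ 5 :: R := by
    rw [hB, hR]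
    simp
  have hn5 : nn w 1 5 = P.count 1 + Q.count 1 := by
    have h1 : pre w 5 = P ++ 4 :: Q := by
      rw [hw]
      refine pre_split ?_ R
      intro h
      rcases List.mem_append.1 h with h | h
      · exact h5P h
      · rcases List.mem_cons.1 h with h | h
        · exact absurd h (by norm_num)
        · exact h5Q h
    unfold nn
    rw [h1, List.count_append, List.count_cons_of_ne (by norm_num)]
  refine ⟨Q.count 1, R.count 1, ?_, hn5, ?_⟩
  · rw [hw, List.flatMap_append, List.flatMap_append, List.flatMap_cons, List.flatMap_cons,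
      fm P h4P h5P, fm Q h4Q h5Q, fm R h4R h5R]
    simp [fr]
  · rw [hn5, hw, List.count_append, List.count_append, List.count_cons_of_ne (by norm_num),
      List.count_cons_of_ne (by norm_num)]

theorem pw_one0 (k : ℕ) : pw k [0] = List.replicate k 0 := by
  induction k with
  | zero => rfl
  | succ k ih => rw [pw_succ, ih, List.replicate_succ]; rfl

theorem rep_fm (g : ℕ → List ℕ) (m : ℕ) (h : g 0 = [0]) :
    (List.replicate m 0).flatMap g = List.replicate m 0 := by
  induction m with
  | zero => rfl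
  | succ m ih => rw [List.replicate_succ, List.flatMap_cons, ih, h]; rfl

/-- **ABV** -/
theorem abv (hpw : MWGQ.PwxStmt) (hox : OxvStmt) : AbvStmt := by
  intro n β hG hE hF w w' hr hK hA
  have hn := hG.pos
  have hK' : KK w' := (hox n β hG hE w w' hr).1.kk hK
  by_contra hA'
  apply hF
  have hA1 : nn w 1 4 = nn w 1 5 := hA
  have hA2 : nn w' 1 4 ≠ nn w' 1 5 := hA'
  obtain ⟨m, g, e1, e2, e3⟩ := shape hK.s4 hK.s5 (by
    by_contra h
    have hm : 5 ∈ pre w 4 := List.count_pos_iff.1 (Nat.pos_of_ne_zero h)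
    exact h hK.o54)
  obtain ⟨m', g', e1', e2', e3'⟩ := shape hK'.s4 hK'.s5 hK'.o54
  obtain ⟨a, ha⟩ : ∃ a, a = nn w 1 4 := ⟨_, rfl⟩
  obtain ⟨a', ha'⟩ : ∃ a', a' = nn w' 1 4 := ⟨_, rfl⟩
  have hm0 : m = 0 := by omega
  have hm1 : 1 ≤ m' := by omega
  have ha2 : 2 ≤ a := by
    have h1 := hK.a40
    have h2 := hK.a41
    omega
  have ha2' : 2 ≤ a' := by
    have h1 := hK'.a40
    have h2 := hK'.a41
    omega
  have h0 := RR.sub fr hr
  rw [e1, e1', ← ha, ← ha', hm0] at h0
  -- insert `0^n` in front of `3`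
  have h1 := RR.sub (fun i => if i = 3 then List.replicate n 0 ++ [3] else [i]) h0
  have f1 : (List.replicate a 0 ++ 2 :: (List.replicate 0 0 ++ 3 :: List.replicate g 0)).flatMap
      (fun i => if i = 3 then List.replicate n 0 ++ [3] else [i]) =
      List.replicate a 0 ++ 2 :: (List.replicate n 0 ++ 3 :: List.replicate g 0) := by
    simp only [List.flatMap_append, List.flatMap_cons]
    rw [rep_fm _ a (by simp), rep_fm _ g (by simp)]
    simp
  have f2 : (List.replicate a' 0 ++ 2 ::
      (List.replicate m' 0 ++ 3 :: List.replicate g' 0)).flatMap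
      (fun i => if i = 3 then List.replicate n 0 ++ [3] else [i]) =
      List.replicate a' 0 ++ 2 :: (List.replicate (m' + n) 0 ++ 3 :: List.replicate g' 0) := by
    simp only [List.flatMap_append, List.flatMap_cons]
    rw [rep_fm _ a' (by simp), rep_fm _ m' (by simp), rep_fm _ g' (by simp), List.replicate_add m' n]
    simp only [if_true, if_neg (show ¬ (2 : ℕ) = 3 by norm_num), List.append_assoc,
      List.cons_append, List.nil_append]
  rw [f1, f2] at h1
  obtain ⟨P1, P2, _⟩ := hpw n β hG
  have h2 : RR β (List.replicate a' 0 ++ 2 :: (List.replicate (m' + n) 0 ++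
      3 :: List.replicate g' 0)) (List.replicate a' 0 ++ 2 ::
      (List.replicate m' 0 ++ 3 :: List.replicate g' 0)) := by
    obtain ⟨b, rfl⟩ : ∃ b, a' = b + 1 := ⟨a' - 1, by omega⟩
    have h3 := P2 [0] (List.replicate b 0 ++ [2]) (m' + n) m' (by omega) hm1
      (by simp [Nat.ModEq])
    rw [pw_one0, pw_one0] at h3
    have h4 := h3.append (RR.refl (β := β) (3 :: List.replicate g' 0))
    have e5 : ∀ c : ℕ, ([0] ++ (List.replicate b 0 ++ [2] ++ List.replicate c 0)) ++
        3 :: List.replicate g' 0 =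
        List.replicate (b + 1) 0 ++ 2 :: (List.replicate c 0 ++ 3 :: List.replicate g' 0) := by
      intro c
      rw [List.replicate_succ]
      simp
    rw [e5, e5] at h4
    exact h4
  have h3 : RR β (List.replicate a 0 ++ 2 :: (List.replicate n 0 ++ 3 :: List.replicate g 0))
      (List.replicate a 0 ++ 2 :: (List.replicate 0 0 ++ 3 :: List.replicate g 0)) :=
    β.trans h1 (β.trans h2 (RR.symm h0))
  -- standard exponents
  have hnm : ∀ c : ℕ, c + ((n - 1) * c + 2) ≡ 2 [MOD n] := by
    intro c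
    obtain ⟨k, rfl⟩ : ∃ k, n = k + 1 := ⟨n - 1, by omega⟩
    have h5 : c + ((k + 1 - 1) * c + 2) = (k + 1) * c + 2 := by
      rw [Nat.add_sub_cancel]
      ring
    rw [h5]
    simp [Nat.ModEq]
  have hN : ∀ k : ℕ, RR β (List.replicate ((n - 1) * a + 2) 0 ++ (List.replicate a 0 ++ 2 ::
      (List.replicate k 0 ++ 3 :: List.replicate g 0)) ++ List.replicate ((n - 1) * g + 2) 0)
      ([0, 0, 2] ++ (List.replicate k 0 ++ [3, 0, 0])) := by
    intro k
    have h5 := P1 [0] (((n - 1) * a + 2) + a) 2 (by omega) (le_refl _) (by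
      rw [Nat.add_comm]
      exact hnm a)
    rw [pw_one0, pw_one0] at h5
    have h6 := h5.append (RR.refl (β := β) (2 :: (List.replicate k 0 ++ 3 ::
      List.replicate (g + ((n - 1) * g + 2)) 0)))
    have h7 := P2 [0] ([0, 2] ++ List.replicate k 0 ++ [3]) (g + ((n - 1) * g + 2)) 2 (by omega)
      (by norm_num) (hnm g)
    rw [pw_one0, pw_one0] at h7
    have e5 : List.replicate ((n - 1) * a + 2) 0 ++ (List.replicate a 0 ++ 2 ::
        (List.replicate k 0 ++ 3 :: List.replicate g 0)) ++ List.replicate ((n - 1) * g + 2) 0 =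
        List.replicate (((n - 1) * a + 2) + a) 0 ++ 2 :: (List.replicate k 0 ++ 3 ::
          List.replicate (g + ((n - 1) * g + 2)) 0) := by
      rw [List.replicate_add ((n - 1) * a + 2) a, List.replicate_add g]
      simp only [List.append_assoc, List.cons_append]
    have e6 : List.replicate 2 0 ++ 2 :: (List.replicate k 0 ++ 3 ::
          List.replicate (g + ((n - 1) * g + 2)) 0) =
        [0] ++ ([0, 2] ++ List.replicate k 0 ++ [3] ++
          List.replicate (g + ((n - 1) * g + 2)) 0) := by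
      simp [List.replicate_succ]
    have e7 : ([0] ++ ([0, 2] ++ List.replicate k 0 ++ [3] ++ List.replicate 2 0) : List ℕ) =
        [0, 0, 2] ++ (List.replicate k 0 ++ [3, 0, 0]) := by
      simp [List.replicate_succ]
    rw [e6] at h6
    rw [e7] at h7
    rw [e5]
    exact β.trans h6 h7
  have h4 := ((RR.refl (β := β) (List.replicate ((n - 1) * a + 2) 0)).append h3).append
    (RR.refl (β := β) (List.replicate ((n - 1) * g + 2) 0))
  have h5 : RR β ([0, 0, 2] ++ (List.replicate 0 0 ++ [3, 0, 0]))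
      ([0, 0, 2] ++ (List.replicate n 0 ++ [3, 0, 0])) :=
    β.trans (RR.symm (hN 0)) (β.trans (RR.symm h4) (hN n))
  exact h5

end Pool.Agent.MWGX.H39
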